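import Pool.Agent.OddAuto34.Main

/-!
# MP_7090ba_al: solvable automorphic loops of odd order have a nontrivial middle nucleus

`IsLoop`, `Mlt`, `IsAutomorphic` are defined in `Pool.Agent.OddAuto34.Basic`, `IsSolvableLoop` in
`Pool.Agent.OddAuto34.Solv`.
-/

namespace Pool.Agent.Results.MP_7090ba_al.SolvableMiddleNucleus

open Pool.Agent.OddAuto34

universe u

/-- The middle nucleus `N_μ(Q)`. -/
def middleNucleus (Q : Type u) [MulOneClass Q] : Set Q :=
  {a | ∀ x y : Q, (x * a) * y = x * (a * y)}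

/-- `V` is a normal subloop of `Q`: it contains `1`, is closed under multiplication and under
both divisions, and is mapped into itself by every inner mapping. -/
structure IsNormalSubloop (Q : Type u) [MulOneClass Q] [IsLoop Q] (V : Set Q) : Prop where
  one_mem : (1 : Q) ∈ V
  mul_mem : ∀ u ∈ V, ∀ w ∈ V, u * w ∈ V
  ldiv_mem : ∀ u ∈ V, ∀ x : Q, u * x ∈ V → x ∈ V
  rdiv_mem : ∀ u ∈ V, ∀ x : Q, x * u ∈ V → x ∈ V
  inner_mem : ∀ g ∈ Mlt Q, g 1 = 1 → ∀ u ∈ V, g u ∈ V

/-- Every minimal normal subloop of a finite solvable automorphic loop of odd order lies in the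
middle nucleus; in particular the middle nucleus is nontrivial if the loop is. -/
theorem result (Q : Type u) [MulOneClass Q] [IsLoop Q] [Finite Q] (hQ : IsAutomorphic Q)
    (hodd : Odd (Nat.card Q)) (hs : IsSolvableLoop Q) :
    (∀ V : Set Q, IsNormalSubloop Q V → V ≠ {1} →
        (∀ U : Set Q, IsNormalSubloop Q U → U ⊆ V → U = {1} ∨ U = V) →
          V ⊆ middleNucleus Q) ∧
      (1 < Nat.card Q → ∃ a ∈ middleNucleus Q, a ≠ 1) := by
  have hN : ∀ U : Set Q, NSub U → IsNormalSubloop Q U := by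
    intro U hU
    have hl : ∀ u ∈ U, ∀ x : Q, u * x ∈ U → x ∈ U := by
      intro u hu x hx
      have hinj : Function.Injective (fun w : U => (⟨u * w.1, hU.mul_mem _ hu _ w.2⟩ : U)) := by
        intro a b hab
        exact Subtype.ext (lcancel (congrArg Subtype.val hab))
      obtain ⟨w, hw⟩ := Finite.surjective_of_injective hinj ⟨u * x, hx⟩
      have h1 : u * w.1 = u * x := congrArg Subtype.val hw
      rw [← lcancel h1]; exact w.2
    have hr : ∀ u ∈ U, ∀ x : Q, x * u ∈ U → x ∈ U := by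
      intro u hu x hx
      have hinj : Function.Injective (fun w : U => (⟨w.1 * u, hU.mul_mem _ w.2 _ hu⟩ : U)) := by
        intro a b hab
        exact Subtype.ext (rcancel (congrArg Subtype.val hab))
      obtain ⟨w, hw⟩ := Finite.surjective_of_injective hinj ⟨x * u, hx⟩
      have h1 : w.1 * u = x * u := congrArg Subtype.val hw
      rw [← rcancel h1]; exact w.2
    exact ⟨hU.one_mem, hU.mul_mem, hl, hr, fun g hg hg1 => hU.inn_mem g ⟨hg, hg1⟩⟩
  constructor
  · intro V hV hV1 hmin a ha x y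
    refine minimal_le Q hQ hodd hs V ⟨hV.one_mem, hV.mul_mem, fun g hg => hV.inner_mem g hg.1 hg.2⟩
      hV1 (fun U hU hUV => hmin U (hN U hU) hUV) a ha x y
  · intro hcard
    obtain ⟨V, hV, hV1, hmin⟩ := exists_minimal (Q := Q) hcard
    have hne : ∃ a ∈ V, a ≠ 1 := by
      by_contra hcon
      push Not at hcon
      exact hV1 (Set.eq_singleton_iff_unique_mem.2 ⟨hV.one_mem, hcon⟩)
    obtain ⟨a, ha, ha1⟩ := hne
    exact ⟨a, fun x y => minimal_le Q hQ hodd hs V hV hV1 hmin a ha x y, ha1⟩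

end Pool.Agent.Results.MP_7090ba_al.SolvableMiddleNucleus
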